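import Mathlib
import Pool.Agent.P.MP_ba7db8_lc.Defs
import Pool.Agent.P.MP_ba7db8_lc.Fix.Main

namespace Pool.Agent.Results.MP_ba7db8_lc.FixedK

open Pool.Agent.P.MP_ba7db8_lc

theorem result (G : Type*) [Group G] [Finite G] [Nontrivial G] :
    ∃ K : ℕ, (∃ p : ℕ, p.Prime ∧ p ∣ Nat.card G ∧ K = p ^ (p ^ 3 + 18)) ∧
      ∀ L : Set (List Bool), InNP L →
        ∃ f : List Bool → List Bool, Nonempty (Turing.TM2ComputableInPolyTime id id f) ∧
          ∀ x, ∃ (N : ℕ) (X : SimpleGraph (Fin N)), f x = pair K.bits (adjBits X) ∧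
            (∃ n ≥ 1, ∃ C : Set (Fin n → G), 1 ∉ C ∧ C⁻¹ = C ∧
              Nonempty (X ≃g SimpleGraph.mulCayley C)) ∧
            (x ∈ L ↔ X.chromaticNumber ≤ K) := by
  obtain ⟨p, hp, hpd⟩ := Nat.exists_prime_and_dvd (Finite.one_lt_card (α := G)).ne'
  exact ⟨_, ⟨p, hp, hpd, rfl⟩, Fix.main G hp hpd⟩

end Pool.Agent.Results.MP_ba7db8_lc.FixedK
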